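import Mathlib

open Cardinal

namespace Pool.Agent.Results.MP_453038_al.Subindices

universe u

/-- The product `A B` is direct: every element has at most one representation `a * b`. -/
def IsDirect {G : Type*} [Group G] (A B : Set G) : Prop :=
  ∀ a ∈ A, ∀ a' ∈ A, ∀ b ∈ B, ∀ b' ∈ B, a * b = a' * b' → a = a' ∧ b = b'

/-- `B` is a right subfactor related to `A`: maximal (under inclusion) with `A B` direct. -/
def IsRightSubfactor {G : Type*} [Group G] (A B : Set G) : Prop := Maximal (IsDirect A) B

/-- The right upper subindex. -/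
noncomputable def upperSubindex {G : Type u} [Group G] (A : Set G) : Cardinal.{u} :=
  sSup {c | ∃ B : Set G, IsRightSubfactor A B ∧ c = #B}

/-- The right lower subindex. -/
noncomputable def lowerSubindex {G : Type u} [Group G] (A : Set G) : Cardinal.{u} :=
  sInf {c | ∃ B : Set G, IsRightSubfactor A B ∧ c = #B}

/-- If `A⁻¹ A` is the complement of `E`, then `A B` is direct iff all quotients of distinct
elements of `B` are in `E`. -/
lemma isDirect_iff {G : Type*} [Group G] {A E : Set G}
    (hE : ∀ g, g ∉ E ↔ ∃ a ∈ A, ∃ a' ∈ A, a⁻¹ * a' = g) {B : Set G} :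
    IsDirect A B ↔ ∀ b ∈ B, ∀ b' ∈ B, b ≠ b' → b * b'⁻¹ ∈ E := by
  constructor
  · intro h b hb b' hb' hne
    by_contra hnot
    obtain ⟨a, ha, a', ha', haa⟩ := (hE _).mp hnot
    have h1 : a * b = a' * b' := by
      have : a' = a * (b * b'⁻¹) := by rw [← haa]; group
      rw [this]; group
    exact hne (h a ha a' ha' b hb b' hb' h1).2
  · intro h a ha a' ha' b hb b' hb' heq
    have hbb : b = b' := by
      by_contra hne
      have h1 : a⁻¹ * a' = b * b'⁻¹ := by
        have : a' = a * b * b'⁻¹ := by rw [heq]; group
        rw [this]; group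
      exact (hE _).mpr ⟨a, ha, a', ha', h1⟩ (h b hb b' hb' hne)
    subst hbb
    exact ⟨mul_right_cancel heq, rfl⟩

section Construction

variable (S : Type u) (T : Type) [Group T]

/-- The group: an elementary abelian 2-group with basis `ℕ × S`, times `T`. -/
abbrev Grp : Type u := Multiplicative ((ℕ × S) →₀ ZMod 2) × T

variable {S T}

/-- The coordinate of an element. -/
def coord (g : Grp S T) (i : ℕ × S) : ZMod 2 := (Multiplicative.toAdd g.1) i

lemma coord_mul (g h : Grp S T) (i : ℕ × S) : coord (g * h) i = coord g i + coord h i := rfl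

lemma coord_inv (g : Grp S T) (i : ℕ × S) : coord g⁻¹ i = - coord g i := rfl

/-- The basis elements. -/
noncomputable def β (i : ℕ × S) : Grp S T := (Multiplicative.ofAdd (Finsupp.single i 1), 1)

lemma coord_β_self (i : ℕ × S) : coord (β i : Grp S T) i = 1 := by
  simp [coord, β]

lemma coord_β_ne {i j : ℕ × S} (h : i ≠ j) : coord (β i : Grp S T) j = 0 := by
  simp [coord, β, h]

lemma β_mul_self (i : ℕ × S) : (β i : Grp S T) * β i = 1 := by
  unfold β
  rw [Prod.mk_mul_mk, ← ofAdd_add, ← Finsupp.single_add]
  have : (1 : ZMod 2) + 1 = 0 := by decide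
  rw [this, Finsupp.single_zero, mul_one]
  rfl

lemma β_inv (i : ℕ × S) : (β i : Grp S T)⁻¹ = β i := inv_eq_of_mul_eq_one_left (β_mul_self i)

lemma β_comm (i j : ℕ × S) : (β i : Grp S T) * β j = β j * β i := by
  unfold β
  rw [Prod.mk_mul_mk, Prod.mk_mul_mk, mul_comm]

lemma β_injective : Function.Injective (β : ℕ × S → Grp S T) := by
  intro i j h
  by_contra hne
  have h1 := coord_β_self (T := T) i
  rw [h, coord_β_ne (Ne.symm hne)] at h1
  exact absurd h1 (by decide)

/-- The parity of the number of nonzero coordinates. -/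
noncomputable def par (g : Grp S T) : ZMod 2 :=
  Finsupp.linearCombination (ZMod 2) (fun _ : ℕ × S => (1 : ZMod 2)) (Multiplicative.toAdd g.1)

lemma par_mul (g h : Grp S T) : par (g * h) = par g + par h := by
  unfold par
  rw [← map_add]
  rfl

lemma par_β (i : ℕ × S) : par (β i : Grp S T) = 1 := by
  simp [par, β]

/-- The set of allowed quotients. -/
def E (s₀ : S) : Set (Grp S T) :=
  {g | g = β (0, s₀) ∨ ∃ s s', s ≠ s' ∧ g = β (0, s) * β (0, s')}

lemma inv_mem_E {s₀ : S} {g : Grp S T} (h : g ∈ E s₀) : g⁻¹ ∈ E s₀ := by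
  rcases h with rfl | ⟨s, s', hne, rfl⟩
  · exact Or.inl (β_inv _)
  · refine Or.inr ⟨s, s', hne, ?_⟩
    rw [mul_inv_rev, β_inv, β_inv, β_comm]

lemma coord_E {s₀ : S} {g : Grp S T} (h : g ∈ E s₀) (n : ℕ) (s : S) : coord g (n + 1, s) = 0 := by
  rcases h with rfl | ⟨t, t', hne, rfl⟩
  · exact coord_β_ne (by simp)
  · rw [coord_mul, coord_β_ne (by simp), coord_β_ne (by simp), add_zero]

lemma one_notMem_E (s₀ : S) : (1 : Grp S T) ∉ E s₀ := by
  rintro (h | ⟨s, s', hne, h⟩)
  · have h1 := coord_β_self (T := T) (0, s₀)
    rw [← h] at h1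
    exact absurd h1 (by change ¬ ((0 : ZMod 2) = 1); decide)
  · have h1 : (β (0, s) : Grp S T) = β (0, s') := by
      rw [← β_inv (0, s')]
      exact eq_inv_of_mul_eq_one_left h.symm
    exact hne (congrArg Prod.snd (β_injective h1))

omit [Group T] in
/-- There is a rank bound for every element. -/
lemma exists_rank (g : Grp S T) : ∃ n : ℕ, ∀ m s, n ≤ m → coord g (m, s) = 0 := by
  refine ⟨(Multiplicative.toAdd g.1).support.sup (fun i => i.1 + 1), fun m s hm => ?_⟩
  by_contra hne
  have h1 : (m, s) ∈ (Multiplicative.toAdd g.1).support := Finsupp.mem_support_iff.mpr hne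
  have h2 := Finset.le_sup (f := fun i : ℕ × S => i.1 + 1) h1
  simp only at h2
  omega

lemma card_Grp [Infinite S] [Finite T] : #(Grp S T) = #S := by
  have h1 : #(Multiplicative ((ℕ × S) →₀ ZMod 2)) = #S := by
    have h2 : #((ℕ × S) →₀ ZMod 2) = max (lift.{0} #(ℕ × S)) (lift.{u} #(ZMod 2)) :=
      Cardinal.mk_finsupp_lift_of_infinite _ _
    have h3 : #(ℕ × S) = #S := by
      rw [mk_prod, mk_nat, lift_aleph0, lift_uzero]
      exact aleph0_mul_eq (aleph0_le_mk S)
    change #((ℕ × S) →₀ ZMod 2) = #S
    rw [h2, h3]
    simp only [lift_uzero]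
    refine max_eq_left ?_
    refine le_trans ?_ (aleph0_le_mk S)
    rw [lift_le_aleph0]
    exact mk_le_aleph0
  rw [mk_prod, h1, lift_uzero]
  refine mul_eq_left (aleph0_le_mk S) ?_ ?_
  · refine le_trans ?_ (aleph0_le_mk S)
    rw [lift_le_aleph0]
    exact mk_le_aleph0
  · rw [Ne, lift_eq_zero]
    exact mk_ne_zero T

/-- The main construction. -/
theorem main [Infinite S] [Finite T] :
    ∃ A : Set (Grp S T), lowerSubindex A = 2 ∧ upperSubindex A = #S := by
  obtain ⟨s₀⟩ : Nonempty S := inferInstance
  obtain ⟨φ, hφ⟩ : ∃ φ : Grp S T → S, Function.Injective φ := by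
    have h1 : #(Grp S T) ≤ #S := card_Grp.le
    obtain ⟨f⟩ := h1
    exact ⟨f, f.injective⟩
  choose r hr using exists_rank (S := S) (T := T)
  let x : Grp S T → ℕ × S := fun g => (r g + 1, φ g)
  have hx : ∀ g h, x g = x h → g = h := fun g h hgh => hφ (congrArg Prod.snd hgh)
  let A : Set (Grp S T) := {a | ∃ g, g ∉ E s₀ ∧ (a = β (x g) ∨ a = β (x g) * g)}
  have hA : ∀ g, g ∉ E s₀ ↔ ∃ a ∈ A, ∃ a' ∈ A, a⁻¹ * a' = g := by
    intro g
    constructor
    · intro hg
      exact ⟨β (x g), ⟨g, hg, Or.inl rfl⟩, β (x g) * g, ⟨g, hg, Or.inr rfl⟩,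
        inv_mul_cancel_left _ _⟩
    · rintro ⟨a, ⟨h, hh, ha⟩, a', ⟨h', hh', ha'⟩, rfl⟩ hmem
      by_cases heq : h = h'
      · subst heq
        rcases ha with rfl | rfl <;> rcases ha' with rfl | rfl
        · rw [inv_mul_cancel] at hmem
          exact one_notMem_E s₀ hmem
        · rw [inv_mul_cancel_left] at hmem
          exact hh hmem
        · have h1 : (β (x h) * h)⁻¹ * β (x h) = h⁻¹ := by group
          rw [h1] at hmem
          have h2 := inv_mem_E hmem
          rw [inv_inv] at h2
          exact hh h2
        · rw [inv_mul_cancel] at hmem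
          exact one_notMem_E s₀ hmem
      · -- coordinates
        have hc1 : ∀ g h : Grp S T, ∀ a, (a = β (x g) ∨ a = β (x g) * g) →
            coord a (x g) = 1 := by
          rintro g _ a (rfl | rfl)
          · exact coord_β_self _
          · rw [coord_mul, coord_β_self, hr g (r g + 1) (φ g) (by omega), add_zero]
        have hc2 : ∀ g h : Grp S T, g ≠ h → r g ≤ r h → ∀ a, (a = β (x g) ∨ a = β (x g) * g) →
            coord a (x h) = 0 := by
          rintro g h hne hle a (rfl | rfl)
          · exact coord_β_ne fun h1 => hne (hx _ _ h1)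
          · rw [coord_mul, coord_β_ne fun h1 => hne (hx _ _ h1),
              hr g (r h + 1) (φ h) (by omega), add_zero]
        rcases le_total (r h) (r h') with hle | hle
        · have h3 := coord_E hmem (r h') (φ h')
          rw [coord_mul, coord_inv] at h3
          have h4 : coord a (r h' + 1, φ h') = 0 := hc2 h h' heq hle a ha
          have h5 : coord a' (r h' + 1, φ h') = 1 := hc1 h' h' a' ha'
          rw [h4, h5] at h3
          exact absurd h3 (by decide)
        · have h3 := coord_E hmem (r h) (φ h)
          rw [coord_mul, coord_inv] at h3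
          have h4 : coord a' (r h + 1, φ h) = 0 := hc2 h' h (Ne.symm heq) hle a' ha'
          have h5 : coord a (r h + 1, φ h) = 1 := hc1 h h a ha
          rw [h4, h5] at h3
          exact absurd h3 (by decide)
  refine ⟨A, ?_, ?_⟩
  · -- the lower subindex
    have hmax : IsRightSubfactor A ({1, β (0, s₀)} : Set (Grp S T)) := by
      constructor
      · rw [isDirect_iff hA]
        rintro b (rfl | rfl) b' (rfl | rfl) hne
        · exact absurd rfl hne
        · rw [one_mul, β_inv]
          exact Or.inl rfl
        · rw [inv_one, mul_one]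
          exact Or.inl rfl
        · exact absurd rfl hne
      · intro B' hB' hsub c hc
        rw [isDirect_iff hA] at hB'
        by_contra hcn
        have hc1 : c ≠ 1 := fun h => hcn (Or.inl h)
        have hc2 : c ≠ β (0, s₀) := fun h => hcn (Or.inr h)
        have h1 := hB' c hc 1 (hsub (Or.inl rfl)) hc1
        have h2 := hB' c hc (β (0, s₀)) (hsub (Or.inr rfl)) hc2
        rw [inv_one, mul_one] at h1
        rw [β_inv] at h2
        rcases h1 with h1 | ⟨s, s', hss, rfl⟩
        · exact hc2 h1
        rcases h2 with h2 | ⟨t, t', htt, h2⟩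
        · exact hc1 (mul_eq_right.mp h2)
        · have h3 := congrArg par h2
          rw [par_mul, par_mul, par_mul, par_β, par_β, par_β, par_β, par_β] at h3
          exact absurd h3 (by decide)
    have h2 : #({1, β (0, s₀)} : Set (Grp S T)) = 2 := by
      rw [mk_insert]
      · simp
        norm_num
      · intro h
        have h' : (1 : Grp S T) = β (0, s₀) := h
        apply one_notMem_E (T := T) s₀
        rw [h']
        exact Or.inl rfl
    apply le_antisymm
    · exact csInf_le' ⟨_, hmax, h2.symm⟩
    · refine le_csInf ⟨_, _, hmax, rfl⟩ ?_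
      rintro _ ⟨B, hB, rfl⟩
      have hBd := (isDirect_iff hA).mp hB.1
      have hne : B.Nonempty := by
        by_contra hemp
        rw [Set.not_nonempty_iff_eq_empty] at hemp
        subst hemp
        have h3 : IsDirect A ({1} : Set (Grp S T)) := by
          rw [isDirect_iff hA]
          rintro b rfl b' rfl hne
          exact absurd rfl hne
        have h4 := hB.2 h3 (Set.empty_subset _) rfl
        exact h4.elim
      obtain ⟨y, hy⟩ := hne
      by_contra hlt
      have hsub : B ⊆ {y} := by
        intro z hz
        by_contra hzy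
        apply hlt
        rw [Cardinal.two_le_iff]
        exact ⟨⟨y, hy⟩, ⟨z, hz⟩, fun h => hzy (congrArg Subtype.val h).symm⟩
      have h3 : IsDirect A ({y, β (0, s₀) * y} : Set (Grp S T)) := by
        rw [isDirect_iff hA]
        rintro b (rfl | rfl) b' (rfl | rfl) hne
        · exact absurd rfl hne
        · rw [mul_inv_rev, mul_inv_cancel_left, β_inv]
          exact Or.inl rfl
        · rw [mul_inv_cancel_right]
          exact Or.inl rfl
        · exact absurd rfl hne
      have h4 : β (0, s₀) * y ∈ B := hB.2 h3 (fun z hz => Or.inl (hsub hz)) (Or.inr rfl)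
      have h5 : β (0, s₀) * y = y := hsub h4
      have h6 : (β (0, s₀) : Grp S T) = 1 := mul_eq_right.mp h5
      apply one_notMem_E (T := T) s₀
      rw [← h6]
      exact Or.inl rfl
  · -- the upper subindex
    have hmax : IsRightSubfactor A (Set.range fun s : S => (β (0, s) : Grp S T)) := by
      constructor
      · rw [isDirect_iff hA]
        rintro _ ⟨s, rfl⟩ _ ⟨s', rfl⟩ hne
        refine Or.inr ⟨s, s', fun h => hne (by rw [h]), ?_⟩
        simp only [β_inv]
      · intro B' hB' hsub c hc
        rw [isDirect_iff hA] at hB'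
        by_contra hcn
        -- choose a coordinate outside the support of `c`
        obtain ⟨s, hs1, hs2⟩ : ∃ s, s ≠ s₀ ∧ coord c (0, s) = 0 := by
          have hfin : {s : S | coord c (0, s) ≠ 0}.Finite := by
            refine ((Multiplicative.toAdd c.1).support.finite_toSet.preimage
              (f := fun s : S => ((0, s) : ℕ × S))
              (fun a _ b _ h => congrArg Prod.snd h)).subset ?_
            intro s hs
            exact Finset.mem_coe.mpr (Finsupp.mem_support_iff.mpr hs)
          obtain ⟨s, hs⟩ := (hfin.union (Set.finite_singleton s₀)).infinite_compl.nonempty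
          refine ⟨s, fun h => hs (Or.inr h), ?_⟩
          by_contra h
          exact hs (Or.inl h)
        have h1 := hB' c hc (β (0, s)) (hsub ⟨s, rfl⟩) (fun h => hcn ⟨s, h.symm⟩)
        rw [β_inv] at h1
        rcases h1 with h1 | ⟨t, t', htt, h1⟩
        · have h2 := congrArg (fun g => coord g (0, s)) h1
          simp only [coord_mul, coord_β_self, hs2] at h2
          rw [coord_β_ne (fun h => hs1 (congrArg Prod.snd h).symm)] at h2
          exact absurd h2 (by decide)
        · by_cases hst : s = t
          · subst hst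
            rw [β_comm] at h1
            exact hcn ⟨t', (mul_right_cancel h1).symm⟩
          · by_cases hst' : s = t'
            · subst hst'
              exact hcn ⟨t, (mul_right_cancel h1).symm⟩
            · have h2 := congrArg (fun g => coord g (0, s)) h1
              simp only [coord_mul, coord_β_self, hs2] at h2
              rw [coord_β_ne (fun h => hst (congrArg Prod.snd h).symm),
                coord_β_ne (fun h => hst' (congrArg Prod.snd h).symm)] at h2
              exact absurd h2 (by decide)
    have hcard : #(Set.range fun s : S => (β (0, s) : Grp S T)) = #S := by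
      refine mk_range_eq _ fun s s' h => congrArg Prod.snd (β_injective h)
    have hub : ∀ c ∈ {c | ∃ B : Set (Grp S T), IsRightSubfactor A B ∧ c = #B}, c ≤ #S := by
      rintro _ ⟨B, _, rfl⟩
      exact (mk_set_le B).trans card_Grp.le
    apply le_antisymm
    · exact csSup_le' hub
    · exact le_csSup ⟨_, hub⟩ ⟨_, hmax, hcard.symm⟩

end Construction

/-- **Main result.** For every infinite cardinal `α` there are an abelian group `G` and a
non-abelian group `G`, each with a subset `A` with lower subindex `2` and upper subindex `α`. -/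
theorem result (α : Cardinal.{u}) (hα : ℵ₀ ≤ α) :
    (∃ (G : Type u) (_ : CommGroup G) (A : Set G), lowerSubindex A = 2 ∧ upperSubindex A = α) ∧
    (∃ (G : Type u) (_ : Group G) (A : Set G), (∃ x y : G, x * y ≠ y * x) ∧
      lowerSubindex A = 2 ∧ upperSubindex A = α) := by
  have hinf : Infinite α.out := by
    rw [Cardinal.infinite_iff, mk_out]
    exact hα
  constructor
  · obtain ⟨A, h1, h2⟩ := main (S := α.out) (T := Unit)
    exact ⟨Grp α.out Unit, inferInstance, A, h1, by rw [h2, mk_out]⟩
  · obtain ⟨A, h1, h2⟩ := main (S := α.out) (T := Equiv.Perm (Fin 3))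
    refine ⟨Grp α.out (Equiv.Perm (Fin 3)), inferInstance, A, ?_, h1, by rw [h2, mk_out]⟩
    refine ⟨(1, Equiv.swap 0 1), (1, Equiv.swap 1 2), fun h => ?_⟩
    have h3 : (Equiv.swap 0 1 : Equiv.Perm (Fin 3)) * Equiv.swap 1 2 =
        Equiv.swap 1 2 * Equiv.swap 0 1 := congrArg Prod.snd h
    exact absurd h3 (by decide)

end Pool.Agent.Results.MP_453038_al.Subindices
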